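import Mathlib
import Pool.Agent.H34.L.TH161.KS.Defs

/-!
# Project KS, step DBL: doubling from the entropy theorem
-/

set_option autoImplicit false

open Finset
open scoped Classical

namespace Pool.Agent.TH938.KS_DBL

open Pool.Agent.TH161.LW Pool.Agent.TH161.KS

variable {α : Type} [Fintype α] [PartialOrder α]

lemma card_pos' {M : ℕ} (h : Std α M) : (0 : ℝ) < (Om α M).card := by
  exact_mod_cast h.ne.card_pos

lemma ex_mono {M : ℕ} {X Y : (α → ℕ) → ℝ} (h : ∀ f, X f ≤ Y f) : ex α M X ≤ ex α M Y := by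
  unfold ex
  exact div_le_div_of_nonneg_right (Finset.sum_le_sum fun f _ => h f) (by positivity)

lemma ex_add {M : ℕ} (X Y : (α → ℕ) → ℝ) : ex α M (fun f => X f + Y f) = ex α M X + ex α M Y := by
  unfold ex
  rw [Finset.sum_add_distrib, add_div]

lemma ex_const {M : ℕ} (h : Std α M) (c : ℝ) : ex α M (fun _ => c) = c := by
  unfold ex
  rw [Finset.sum_const, nsmul_eq_mul, mul_div_assoc, mul_comm, div_mul_cancel₀]
  exact (card_pos' h).ne'

lemma pr_nonneg (M : ℕ) (p : (α → ℕ) → Prop) : 0 ≤ pr α M p := by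
  unfold Pool.Agent.TH161.KS.pr; positivity

lemma pr_mono {M : ℕ} {p q : (α → ℕ) → Prop} (h : ∀ f, p f → q f) : pr α M p ≤ pr α M q := by
  unfold Pool.Agent.TH161.KS.pr
  refine div_le_div_of_nonneg_right ?_ (by positivity)
  exact_mod_cast Finset.card_le_card fun f hf => by
    rw [Finset.mem_filter] at hf ⊢
    exact ⟨hf.1, h f hf.2⟩

lemma pr_le_add {M : ℕ} {p q r : (α → ℕ) → Prop} (h : ∀ f, r f → p f ∨ q f) :
    pr α M r ≤ pr α M p + pr α M q := by
  unfold Pool.Agent.TH161.KS.pr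
  rw [← add_div]
  refine div_le_div_of_nonneg_right ?_ (by positivity)
  rw [← Nat.cast_add]
  refine Nat.cast_le.mpr ((Finset.card_le_card ?_).trans (Finset.card_union_le _ _))
  intro f hf
  obtain ⟨h1, h2⟩ := Finset.mem_filter.mp hf
  rcases h f h2 with h2 | h2
  · exact Finset.mem_union_left _ (Finset.mem_filter.mpr ⟨h1, h2⟩)
  · exact Finset.mem_union_right _ (Finset.mem_filter.mpr ⟨h1, h2⟩)

lemma pr_or {M : ℕ} (p q : (α → ℕ) → Prop) :
    pr α M (fun f => p f ∨ q f) ≤ pr α M p + pr α M q := pr_le_add fun _ h => h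

lemma markov (M : ℕ) {X : (α → ℕ) → ℝ} (hX : ∀ f, 0 ≤ X f) {t : ℝ} (ht : 0 < t) :
    pr α M (fun f => t ≤ X f) ≤ ex α M X / t := by
  unfold Pool.Agent.TH161.KS.pr ex
  rw [div_div, mul_comm, ← div_div]
  refine div_le_div_of_nonneg_right ?_ (by positivity)
  rw [le_div_iff₀ ht]
  calc (((Om α M).filter fun f => t ≤ X f).card : ℝ) * t
      = ∑ f ∈ (Om α M).filter fun f => t ≤ X f, t := by
        rw [Finset.sum_const, nsmul_eq_mul]
    _ ≤ ∑ f ∈ (Om α M).filter fun f => t ≤ X f, X f :=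
        Finset.sum_le_sum fun f hf => (Finset.mem_filter.mp hf).2
    _ ≤ ∑ f ∈ Om α M, X f := Finset.sum_le_sum_of_subset_of_nonneg (Finset.filter_subset _ _)
        fun f _ _ => hX f

lemma rho_le {M : ℕ} (h : Std α M) (x y : α) :
    rho M x y ≤ tau M x y + |hh M y - hh M x| := by
  unfold rho tau
  rw [← ex_const h |hh M y - hh M x|, ← ex_add]
  exact ex_mono fun f => by
    have := abs_add_le (dd M x y f - (hh M y - hh M x)) (hh M y - hh M x)
    rwa [sub_add_cancel] at this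

/-- two elements at mean distance at least `η` are rarely close -/
lemma close {M : ℕ} (h : Std α M) {ε η : ℝ} (hε : 0 < ε) (hε2 : ε ≤ 1 / 2)
    (hη : 2 ^ 17 / ε ^ 2 ≤ η) {z z' : α} (hr : η ≤ rho M z z') :
    pr α M (fun f => |dd M z z' f| < ε ^ 2 * η / 2 ^ 17) ≤ ε / 8 := by
  set η₁ := ε ^ 2 * η / 2 ^ 17 with hη₁
  have hη0 : 0 < η := lt_of_lt_of_le (by positivity) hη
  have hη1 : 1 ≤ η₁ := by
    rw [hη₁, le_div_iff₀ (by positivity)]
    rw [div_le_iff₀ (by positivity)] at hη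
    linarith
  have hη4 : η₁ ≤ η / 4 := by
    rw [hη₁, div_le_div_iff₀ (by positivity) (by positivity)]
    have : ε ^ 2 ≤ 1 := by nlinarith
    nlinarith
  by_cases ht : ε * η / 64 ≤ tau M z z'
  · have h1 := h.ball z z' (-η₁) (2 * η₁) (by linarith)
    have h2 : pr α M (fun f => |dd M z z' f| < η₁) ≤
        pr α M (fun f => -η₁ ≤ dd M z z' f ∧ dd M z z' f < -η₁ + 2 * η₁) :=
      pr_mono fun f hf => by
        have := abs_lt.mp hf
        constructor <;> linarith
    set P := pr α M (fun f => -η₁ ≤ dd M z z' f ∧ dd M z z' f < -η₁ + 2 * η₁) with hP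
    refine h2.trans ?_
    have hP0 : 0 ≤ P := pr_nonneg _ _
    have h3 : ε * η / 64 * P ≤ 38 * (2 * η₁ + 1) := (mul_le_mul_of_nonneg_right ht hP0).trans h1
    have h4 : 38 * (2 * η₁ + 1) ≤ 38 * 3 * η₁ := by linarith
    have h5 : ε * η / 64 * P ≤ ε * η / 64 * (ε / 8) := by
      refine h3.trans (h4.trans ?_)
      rw [hη₁]
      have : 0 < ε ^ 2 * η := by positivity
      nlinarith
    exact le_of_mul_le_mul_left h5 (by positivity)
  · push Not at ht
    have h1 := rho_le h z z'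
    have h2 : η / 2 ≤ |hh M z' - hh M z| := by
      have : ε * η / 64 ≤ η / 2 := by nlinarith
      linarith
    have h3 : pr α M (fun f => |dd M z z' f| < η₁) ≤
        pr α M (fun f => η / 4 ≤ |dd M z z' f - (hh M z' - hh M z)|) :=
      pr_mono fun f hf => by
        have h4 := abs_sub_abs_le_abs_sub (hh M z' - hh M z) (dd M z z' f)
        have h5 : |hh M z' - hh M z - dd M z z' f| = |dd M z z' f - (hh M z' - hh M z)| :=
          abs_sub_comm _ _
        linarith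
    have h4 := markov (α := α) M (X := fun f => |dd M z z' f - (hh M z' - hh M z)|)
      (fun f => abs_nonneg _) (t := η / 4) (by positivity)
    refine h3.trans (h4.trans ?_)
    change tau M z z' / (η / 4) ≤ ε / 8
    rw [div_le_iff₀ (by positivity)]
    nlinarith

/-- the cell function -/
noncomputable def cc (y : α) (B₁ M₀ J : ℕ) (z : α) (f : α → ℕ) : ℕ :=
  min (((f z + B₁) - f y) / M₀) (2 ^ J - 1)

omit [Fintype α] [PartialOrder α] in
lemma cc_mono {y : α} {B₁ M₀ J : ℕ} {z z' : α} {f : α → ℕ} (h : f z ≤ f z') :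
    cc y B₁ M₀ J z f ≤ cc y B₁ M₀ J z' f := by
  unfold cc
  refine min_le_min_right _ (Nat.div_le_div_right ?_)
  omega

omit [Fintype α] [PartialOrder α] in
lemma cc_eq {y : α} {B₁ M₀ J : ℕ} (hM₀ : 0 < M₀) (hJ : 2 * B₁ / M₀ + 1 < 2 ^ J) {z z' : α}
    {f : α → ℕ} (h : cc y B₁ M₀ J z f = cc y B₁ M₀ J z' f) :
    |(f z' : ℤ) - f z| < M₀ ∨ (B₁ : ℤ) ≤ |(f z : ℤ) - f y| ∨ (B₁ : ℤ) ≤ |(f z' : ℤ) - f y| := by
  by_contra hcon
  push Not at hcon
  obtain ⟨h1, h2, h3⟩ := hcon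
  rw [abs_lt] at h2 h3
  have key : ∀ w : α, -(B₁ : ℤ) < (f w : ℤ) - f y → (f w : ℤ) - f y < B₁ →
      cc y B₁ M₀ J w f = ((f w + B₁) - f y) / M₀ := by
    intro w hw1 hw2
    unfold cc
    refine min_eq_left ?_
    have : ((f w + B₁) - f y) / M₀ ≤ 2 * B₁ / M₀ := Nat.div_le_div_right (by omega)
    omega
  rw [key z h2.1 h2.2, key z' h3.1 h3.2] at h
  have e1 := Nat.div_add_mod ((f z + B₁) - f y) M₀
  have e2 := Nat.div_add_mod ((f z' + B₁) - f y) M₀
  have e3 := Nat.mod_lt ((f z + B₁) - f y) hM₀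
  have e4 := Nat.mod_lt ((f z' + B₁) - f y) hM₀
  rw [h] at e1
  rcases le_abs.mp h1 with h4 | h4 <;> omega

/-- an unbalanced pair has a large sum of signs -/
lemma bt_le {M : ℕ} (h : Std α M) {ε : ℝ} {y : α} {B₁ M₀ J : ℕ} {z z' : α}
    (hp : pr α M (fun f => f z < f z') ≤ 1 / 2 - ε)
    (hs : pr α M (fun f => cc y B₁ M₀ J z f = cc y B₁ M₀ J z' f) ≤ ε) :
    BT (fun (x : α) (ω : Om α M) => cc y B₁ M₀ J x ω.1) z z' ≤ -(ε * (Om α M).card) := by
  have hN := card_pos' h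
  have h0 : BT (fun (x : α) (ω : Om α M) => cc y B₁ M₀ J x ω.1) z z' =
      ∑ f ∈ Om α M, sgn (cc y B₁ M₀ J z f) (cc y B₁ M₀ J z' f) := by
    unfold BT
    exact Finset.sum_coe_sort (Om α M) (fun f => sgn (cc y B₁ M₀ J z f) (cc y B₁ M₀ J z' f))
  have h1 : ∑ f ∈ Om α M, sgn (cc y B₁ M₀ J z f) (cc y B₁ M₀ J z' f) ≤
      ∑ f ∈ Om α M, (2 * (if f z < f z' then (1 : ℝ) else 0) - 1 +
        (if cc y B₁ M₀ J z f = cc y B₁ M₀ J z' f then (1 : ℝ) else 0)) := by
    refine Finset.sum_le_sum fun f _ => ?_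
    unfold sgn
    by_cases h2 : f z < f z'
    · have h3 := cc_mono (y := y) (B₁ := B₁) (M₀ := M₀) (J := J) h2.le
      rcases h3.lt_or_eq with h4 | h4
      · simp only [h2, h4, h4.ne, if_true, if_false]; norm_num
      · simp only [h2, h4, lt_irrefl, if_true, if_false]; norm_num
    · have h3 := cc_mono (y := y) (B₁ := B₁) (M₀ := M₀) (J := J) (not_lt.mp h2)
      rcases h3.lt_or_eq with h4 | h4
      · simp [h2, h4, h4.not_gt, h4.ne']
      · simp [h2, h4]
  rw [Finset.sum_add_distrib, Finset.sum_sub_distrib, ← Finset.mul_sum, Finset.sum_boole,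
    Finset.sum_boole, Finset.sum_const, nsmul_eq_mul, mul_one] at h1
  rw [h0]
  refine h1.trans ?_
  unfold Pool.Agent.TH161.KS.pr at hp hs
  rw [div_le_iff₀ hN] at hp hs
  have hp' : ((((Om α M).filter fun f => f z < f z').card : ℕ) : ℝ) ≤
      (1 / 2 - ε) * (Om α M).card := by
    refine le_trans (le_of_eq ?_) hp
    congr!
  have hs' : ((((Om α M).filter fun f => cc y B₁ M₀ J z f = cc y B₁ M₀ J z' f).card : ℕ) : ℝ) ≤
      ε * (Om α M).card := by
    refine le_trans (le_of_eq ?_) hs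
    congr!
  linarith

theorem t_DBL : P_DBL := by
  refine ⟨4 * 10 ^ 7, by norm_num, ?_⟩
  intro α _ _ M hstd ε hε hε2 hun Z y η B hη hηB hsep hB
  have hN := card_pos' hstd
  have hη17 : 2 ^ 17 / ε ^ 2 ≤ η := by
    refine le_trans ?_ hη
    exact div_le_div_of_nonneg_right (by norm_num) (by positivity)
  have hη0 : 0 < η := lt_of_lt_of_le (by positivity) hη17
  have hB0 : 0 < B := by linarith
  set X := B / (η * ε) with hX
  have hX2 : 2 ≤ X := by
    rw [hX, le_div_iff₀ (by positivity)]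
    nlinarith
  have hlog2 : 0 < Real.log 2 := Real.log_pos (by norm_num)
  have hlogX : Real.log 2 ≤ Real.log X := Real.log_le_log (by norm_num) hX2
  rcases Z.eq_empty_or_nonempty with hZ | hZ
  · rw [hZ]; simp; positivity
  set U := unit α M with hU
  have hU1 : 1 ≤ U := hstd.unit_ge
  have hU0 : 0 < U := by linarith
  set η₁ := ε ^ 2 * η / 2 ^ 17 with hη₁
  have hη1 : 1 ≤ η₁ := by
    rw [hη₁, le_div_iff₀ (by positivity)]
    rw [div_le_iff₀ (by positivity)] at hη17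
    linarith
  set B₁ : ℕ := ⌈16 * B / ε * U⌉₊ with hB₁
  set M₀ : ℕ := ⌊η₁ * U⌋₊ with hM₀
  have hM₀1 : 1 ≤ M₀ := by
    rw [hM₀]
    refine Nat.le_floor ?_
    push_cast
    nlinarith
  have hM₀le : (M₀ : ℝ) ≤ η₁ * U := Nat.floor_le (by positivity)
  have hM₀ge : η₁ * U / 2 ≤ M₀ := by
    have h1 : η₁ * U < M₀ + 1 := Nat.lt_floor_add_one _
    have h2 : (1 : ℝ) ≤ M₀ := by exact_mod_cast hM₀1
    linarith
  have hB₁ge : 16 * B / ε * U ≤ B₁ := Nat.le_ceil _
  have hB₁le : (B₁ : ℝ) ≤ 17 * (B / ε) * U := by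
    have h1 : (B₁ : ℝ) < 16 * B / ε * U + 1 := Nat.ceil_lt_add_one (by positivity)
    have h2 : 1 ≤ B / ε * U := by
      have h3 : 1 ≤ B / ε := by
        rw [le_div_iff₀ hε]
        have : 1 ≤ η := by
          refine le_trans ?_ hη17
          rw [le_div_iff₀ (by positivity)]
          nlinarith
        linarith
      nlinarith
    have h3 : 16 * B / ε * U = 16 * (B / ε * U) := by ring
    rw [h3] at h1
    linarith
  set J : ℕ := ⌈28 * (Real.log X / Real.log 2)⌉₊ with hJ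
  have hXpow : X ^ 28 ≤ (2 : ℝ) ^ J := by
    have h1 : 28 * (Real.log X / Real.log 2) ≤ J := Nat.le_ceil _
    have h2 : 28 * Real.log X ≤ J * Real.log 2 := by
      rw [mul_div_assoc'] at h1
      rwa [div_le_iff₀ hlog2] at h1
    rw [← Real.log_le_log_iff (by positivity) (by positivity), Real.log_pow, Real.log_pow]
    exact_mod_cast h2
  have hJle : (J : ℝ) ≤ 42 * Real.log X := by
    have h2 : 1 ≤ Real.log X / Real.log 2 := by
      rw [le_div_iff₀ hlog2]; linarith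
    have h1 : (J : ℝ) < 28 * (Real.log X / Real.log 2) + 1 := Nat.ceil_lt_add_one (by linarith)
    have h3 : 29 * (Real.log X / Real.log 2) ≤ 42 * Real.log X := by
      rw [mul_div_assoc', div_le_iff₀ hlog2]
      have : 0.6931471803 < Real.log 2 := Real.log_two_gt_d9
      nlinarith
    linarith
  have hJ1 : 1 ≤ J := by
    by_contra hcon
    have : J = 0 := by omega
    rw [this, pow_zero] at hXpow
    have h2 : (2 : ℝ) ^ 28 ≤ X ^ 28 := pow_le_pow_left₀ (by norm_num) hX2 28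
    norm_num at h2
    linarith
  have hJB : 2 * B₁ / M₀ + 1 < 2 ^ J := by
    have h1 : ((2 * B₁ / M₀ : ℕ) : ℝ) ≤ ((2 * B₁ : ℕ) : ℝ) / M₀ := Nat.cast_div_le
    have hM₀0 : (0 : ℝ) < M₀ := by exact_mod_cast hM₀1
    have h2 : ((2 * B₁ : ℕ) : ℝ) / M₀ ≤ 68 * 2 ^ 17 * (B / (ε ^ 3 * η)) := by
      rw [div_le_iff₀ hM₀0]
      push_cast
      have h3 : 68 * 2 ^ 17 * (B / (ε ^ 3 * η)) * (η₁ * U / 2) ≤
        68 * 2 ^ 17 * (B / (ε ^ 3 * η)) * M₀ := mul_le_mul_of_nonneg_left hM₀ge (by positivity)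
      have h4 : 68 * 2 ^ 17 * (B / (ε ^ 3 * η)) * (η₁ * U / 2) = 34 * (B / ε) * U := by
        rw [hη₁]; field_simp; ring
      linarith
    have h3 : B / (ε ^ 3 * η) ≤ X ^ 3 := by
      have h4 : X ^ 3 = (B / η) ^ 2 * (B / (ε ^ 3 * η)) := by
        rw [hX]; field_simp
      have h5 : 1 ≤ B / η := by rw [le_div_iff₀ hη0]; linarith
      rw [h4]
      have h6 : 1 ≤ (B / η) ^ 2 := one_le_pow₀ h5
      have h7 : 0 ≤ B / (ε ^ 3 * η) := by positivity
      nlinarith
    have h4 : (1 : ℝ) ≤ X ^ 3 := one_le_pow₀ (by linarith)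
    have h5 : ((2 * B₁ / M₀ : ℕ) : ℝ) + 1 < (2 : ℝ) ^ J := by
      have h6 : (2 : ℝ) ^ 25 * X ^ 3 ≤ X ^ 28 := by
        have h7 : (2 : ℝ) ^ 25 ≤ X ^ 25 := pow_le_pow_left₀ (by norm_num) hX2 25
        calc (2 : ℝ) ^ 25 * X ^ 3 ≤ X ^ 25 * X ^ 3 := mul_le_mul_of_nonneg_right h7 (by positivity)
          _ = X ^ 28 := by ring
      have h8 : ((2 * B₁ / M₀ : ℕ) : ℝ) + 1 < 2 ^ 25 * X ^ 3 := by
        have h9 : 68 * 2 ^ 17 * (B / (ε ^ 3 * η)) ≤ 68 * 2 ^ 17 * X ^ 3 :=
          mul_le_mul_of_nonneg_left h3 (by norm_num)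
        have h10 : (2 : ℝ) ^ 25 * X ^ 3 = 256 * 2 ^ 17 * X ^ 3 := by ring
        rw [h10]
        have h11 : ((2 * B₁ / M₀ : ℕ) : ℝ) ≤ 68 * 2 ^ 17 * X ^ 3 := h1.trans (h2.trans h9)
        linarith
      linarith
    exact_mod_cast h5
  -- same cell
  have hsame : ∀ z ∈ Z, ∀ z' ∈ Z, z ≠ z' →
      pr α M (fun f => cc y B₁ M₀ J z f = cc y B₁ M₀ J z' f) ≤ ε := by
    intro z hz z' hz' hzz
    have hfar : ∀ w ∈ Z, pr α M (fun f => 16 * B / ε ≤ |dd M y w f|) ≤ ε / 16 := by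
      intro w hw
      have h1 := markov (α := α) M (X := fun f => |dd M y w f|) (fun f => abs_nonneg _)
        (t := 16 * B / ε) (by positivity)
      refine h1.trans ?_
      change rho M y w / (16 * B / ε) ≤ ε / 16
      rw [div_le_iff₀ (by positivity)]
      have h2 : ε / 16 * (16 * B / ε) = B := by field_simp
      rw [h2]
      exact hB w hw
    have hcl := close hstd hε hε2 hη17 (hsep z hz z' hz' hzz)
    rw [← hη₁] at hcl
    have h1 : pr α M (fun f => cc y B₁ M₀ J z f = cc y B₁ M₀ J z' f) ≤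
        pr α M (fun f => |dd M z z' f| < η₁ ∨ (16 * B / ε ≤ |dd M y z f| ∨
          16 * B / ε ≤ |dd M y z' f|)) := by
      refine pr_mono fun f hf => ?_
      have h2 : ∀ a b : α, |dd M a b f| = |((f b : ℤ) - f a : ℤ)| / U := by
        intro a b
        unfold dd
        rw [abs_div, abs_of_pos hU0]
        push_cast
        rfl
      rcases cc_eq (by omega) hJB hf with h3 | h3 | h3
      · left
        rw [h2, div_lt_iff₀ hU0]
        refine lt_of_lt_of_le ?_ hM₀le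
        exact_mod_cast h3
      · right; left
        rw [h2, le_div_iff₀ hU0]
        refine hB₁ge.trans ?_
        exact_mod_cast h3
      · right; right
        rw [h2, le_div_iff₀ hU0]
        refine hB₁ge.trans ?_
        exact_mod_cast h3
    have h2 := pr_or (α := α) (M := M) (fun f => |dd M z z' f| < η₁)
      (fun f => 16 * B / ε ≤ |dd M y z f| ∨ 16 * B / ε ≤ |dd M y z' f|)
    have h3 := pr_or (α := α) (M := M) (fun f => 16 * B / ε ≤ |dd M y z f|)
      (fun f => 16 * B / ε ≤ |dd M y z' f|)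
    have h4 := hfar z hz
    have h5 := hfar z' hz'
    linarith
  have hne : Nonempty (Om α M) := by
    obtain ⟨f, hf⟩ := hstd.ne
    exact ⟨⟨f, hf⟩⟩
  have hinfo := info (Ω := Om α M) (J := J) hJ1
    (c := fun (x : α) (ω : Om α M) => cc y B₁ M₀ J x ω.1) hε hZ
    (fun x _ ω => by
      show cc y B₁ M₀ J x ω.1 < 2 ^ J
      unfold cc
      have : 0 < 2 ^ J := by positivity
      omega) (fun z hz z' hz' hzz => by
      simp only [Fintype.card_coe]
      rcases hun z z' hzz with h1 | h1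
      · have h2 := bt_le hstd h1 (hsame z hz z' hz' hzz)
        refine le_trans ?_ (neg_le_abs _)
        linarith
      · have h2 := bt_le hstd h1 (hsame z' hz' z hz hzz.symm)
        rw [BT_anti, abs_neg]
        refine le_trans ?_ (neg_le_abs _)
        linarith)
  have hZ0 : (0 : ℝ) < Z.card := by exact_mod_cast hZ.card_pos
  rw [← Real.exp_log hZ0]
  refine Real.exp_le_exp.mpr ?_
  rw [le_div_iff₀ (by positivity)]
  have h1 : (J : ℝ) ^ 3 ≤ (42 * Real.log X) ^ 3 := pow_le_pow_left₀ (by positivity) hJle 3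
  have h2 : 0 ≤ Real.log X ^ 3 := pow_nonneg (by linarith) 3
  have h3 : (42 * Real.log X) ^ 3 = 74088 * Real.log X ^ 3 := by ring
  rw [h3] at h1
  nlinarith

end Pool.Agent.TH938.KS_DBL
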